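import Pool.Agent.H88.PA.Defs

/-!
# `P = W` for groups of type `A₁`: definitions
-/

set_option autoImplicit false

open Matrix

namespace Pool.Agent.H88.PB

open Pool.Agent.H88.PW Pool.Agent.H88.PA

/-- The relation `[a₁, b₁] ⋯ [a_g, b_g] = 1` of the fundamental group of a curve of genus `g`. -/
def surfaceRel (g : ℕ) : FreeGroup (Fin g × Bool) :=
  (List.ofFn fun i : Fin g => FreeGroup.of (i, false) * FreeGroup.of (i, true) *
    (FreeGroup.of (i, false))⁻¹ * (FreeGroup.of (i, true))⁻¹).prod

/-- `Γ` has a subgroup of finite index which is isomorphic to the fundamental group of a curve of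
genus at least two. -/
def VirtuallySurface (Γ : Type) [Group Γ] : Prop :=
  ∃ H : Subgroup Γ, H.index ≠ 0 ∧ ∃ g : ℕ, 2 ≤ g ∧ Nonempty (H ≃* PresentedGroup {surfaceRel g})

/-- `G` has a subgroup of finite index which is the image of `SL₂(ℂ)` under a nontrivial
homomorphism given by polynomials: the identity component of `G` is isomorphic to `SL₂` or
`PGL₂`. -/
def TypeA1 {n : ℕ} (G : Subgroup (GL (Fin n) ℂ)) : Prop :=
  ∃ φ : SpecialLinearGroup (Fin 2) ℂ →* GL (Fin n) ℂ, φ ≠ 1 ∧ φ.range ≤ G ∧
    φ.range.relIndex G ≠ 0 ∧ ∀ i j, ∃ f : MvPolynomial (Fin 2 × Fin 2) ℂ,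
      ∀ x, φ x i j = MvPolynomial.eval (fun q => x q.1 q.2) f

/-- `G` is generated by the image of `SL₂(ℂ)` under a nontrivial homomorphism given by polynomials
and by a central torus, the image of `(ℂˣ)^k` under a homomorphism given by Laurent polynomials:
`G` is a connected reductive group of semisimple rank one, for instance `GL₂`, `SL₂` or `PGL₂`. -/
def RankOne {n : ℕ} (G : Subgroup (GL (Fin n) ℂ)) : Prop :=
  ∃ (φ : SpecialLinearGroup (Fin 2) ℂ →* GL (Fin n) ℂ) (k : ℕ)
    (ψ : (Fin k → ℂˣ) →* GL (Fin n) ℂ), φ ≠ 1 ∧ (∀ x t, φ x * ψ t = ψ t * φ x) ∧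
    G = φ.range ⊔ ψ.range ∧
    (∀ i j, ∃ f : MvPolynomial (Fin 2 × Fin 2) ℂ,
      ∀ x, φ x i j = MvPolynomial.eval (fun q => x q.1 q.2) f) ∧
    ∀ i j, ∃ f : MvPolynomial (Fin k ⊕ Fin k) ℂ, ∀ t, ψ t i j = MvPolynomial.eval
      (Sum.elim (fun l => (t l : ℂ)) fun l => ((t l)⁻¹ : ℂˣ)) f

/-- `ρ` maps a subgroup of finite index to an abelian group. -/
def VirtuallyAbelian {Γ : Type} [Group Γ] {n : ℕ} (ρ : Γ →* GL (Fin n) ℂ) : Prop :=
  ∃ B : Subgroup Γ, B.index ≠ 0 ∧ ∀ a ∈ B, ∀ b ∈ B, ρ a * ρ b = ρ b * ρ a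

/-- `ρ` is a semisimple representation in `G`. -/
def IsRep {Γ : Type} [Group Γ] {n : ℕ} (G : Red n) (ρ : Γ →* GL (Fin n) ℂ) : Prop :=
  (∀ γ, ρ γ ∈ G.pts) ∧ Semi ρ.range

/-- The moduli spaces of the representations of the fundamental groups of smooth complex projective
varieties, and of the corresponding Higgs bundles. -/
structure Theory where
  /-- the connected smooth projective varieties -/
  Var : Type
  /-- the fundamental group -/
  grp : Var → Type
  [isGrp : ∀ X, Group (grp X)]
  /-- the homomorphism is induced by a map of `X` to `Z`, or to an orbifold with the same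
  fundamental group as `Z` -/
  Geo : {X Z : Var} → (grp X →* grp Z) → Prop
  /-- the irreducible components of the moduli space of `X` and `G` -/
  Comp : Var → {n : ℕ} → Red n → Type
  /-- the intersection cohomology of a component, with the weight filtration and the perverse
  filtration -/
  coh : {X : Var} → {n : ℕ} → {G : Red n} → Comp X G → Bif
  /-- the class of the representation is a point of the component -/
  On : {X : Var} → {n : ℕ} → {G : Red n} → Comp X G → (grp X →* GL (Fin n) ℂ) → Prop
  /-- the points of the moduli space are the semisimple representations in `G` -/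
  semi : ∀ {X : Var} {n : ℕ} {G : Red n} (Y : Comp X G) (ρ : grp X →* GL (Fin n) ℂ), On Y ρ →
    IsRep G ρ
  /-- a reductive group has only countably many conjugacy classes of reductive subgroups -/
  countable : ∀ {n : ℕ} (G : Red n), ∃ N : ℕ → Red n, (∀ i, (N i).pts ≤ G.pts) ∧
    ∀ H : Red n, H.pts ≤ G.pts → ∃ i, ConjIn G.pts H.pts (N i).pts
  /-- `M(X, N) → M(X, G)` and `M(Z, G) → M(X, G)` are finite, an irreducible variety is not a union
  of countably many proper closed subsets, and the intersection cohomology of the image of a finite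
  morphism is a direct summand of the one of the source -/
  dominated : ∀ {X : Var} {n : ℕ} {G : Red n} (Y : Comp X G)
    (ι : Type) [Countable ι] (N : ι → Red n), (∀ i, (N i).pts ≤ G.pts) →
    ∀ (κ : Type) [Countable κ] (Z : κ → Var) (q : ∀ k, grp X →* grp (Z k)), (∀ k, Geo (q k)) →
    ∀ σ : ℕ → (grp X →* GL (Fin n) ℂ),
    (∀ ρ, On Y ρ → (∃ i, ∃ g ∈ G.pts, ∀ γ, g * ρ γ * g⁻¹ ∈ (N i).pts) ∨
      (∃ k, ∃ ρ' : grp (Z k) →* GL (Fin n) ℂ, IsRep G ρ' ∧ ρ = ρ'.comp (q k)) ∨
      ∃ l, ∃ g ∈ G.pts, ∀ γ, ρ γ = g * σ l γ * g⁻¹) →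
    (∃ i, ∃ Y' : Comp X (N i), (coh Y).IsSummand (coh Y')) ∨
      (∃ k, ∃ Y' : Comp (Z k) G, (coh Y).IsSummand (coh Y')) ∨ (coh Y).IsSummand (toric 0)
  /-- if the identity component of `N` is a torus, the components for `X` and `N` are quotients of
  tori by finite groups -/
  torus : ∀ {X : Var} {n : ℕ} {N : Red n}, TorusByFinite N.pts → ∀ Y : Comp X N,
    ∃ d, (coh Y).IsSummand (toric d)
  /-- Corlette and Simpson: if `G` is of type `A₁`, the semisimple representations of the
  fundamental group of `X` in `G` which have no virtually abelian image factor through one of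
  countably many homomorphisms to groups which are virtually surface groups, induced by maps to
  orbifold curves, or are conjugate to one of countably many representations (pulled back from
  quotients of polydiscs) -/
  corletteSimpson : ∀ (X : Var) {n : ℕ} (G : Red n), TypeA1 G.pts →
    ∃ (κ : Type) (_ : Countable κ) (Z : κ → Var) (q : ∀ k, grp X →* grp (Z k))
      (σ : ℕ → (grp X →* GL (Fin n) ℂ)),
      (∀ k, Geo (q k) ∧ VirtuallySurface (grp (Z k)) ∧ Function.Surjective (q k)) ∧
      ∀ ρ : grp X →* GL (Fin n) ℂ, IsRep G ρ → VirtuallyAbelian ρ ∨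
        (∃ k, ∃ ρ' : grp (Z k) →* GL (Fin n) ℂ, ρ = ρ'.comp (q k)) ∨
        ∃ l, ∃ g ∈ G.pts, ∀ γ, ρ γ = g * σ l γ * g⁻¹

  /-- if `G` is connected of semisimple rank one, a representation in `G` is, up to a character with
  values in the central torus, a representation in a group `H` of type `A₁`; so the components are
  images of products of components for `H` and of tori -/
  twist : ∀ {X : Var} {n : ℕ} {G : Red n}, RankOne G.pts → ∀ Y : Comp X G,
    ∃ H : Red n, H.pts ≤ G.pts ∧ TypeA1 H.pts ∧ ∃ (Y' : Comp X H) (d : ℕ) (C : Bif),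
      C.IsTensor (coh Y') (toric d) ∧ (coh Y).IsSummand C

attribute [instance] Theory.isGrp

end Pool.Agent.H88.PB
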