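import Pool.Agent.H88.PB.Surf
import Pool.Agent.H88.PA.Main

/-!
# `P = W` for groups of type `A₁`
-/

set_option autoImplicit false

open Matrix

namespace Pool.Agent.H88.PB

open Pool.Agent.H88.PW Pool.Agent.H88.PA

variable {n : ℕ}

theorem torusByFinite_conj {G H N : Subgroup (GL (Fin n) ℂ)} (h : ConjIn G H N)
    (hH : TorusByFinite H) : TorusByFinite N := by
  obtain ⟨g, -, rfl⟩ := h
  obtain ⟨D, hD, ⟨b, hb⟩, hi⟩ := hH
  refine ⟨D.map (MulAut.conj g).toMonoidHom, Subgroup.map_mono hD, ?_, ?_⟩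
  · let e : (Fin n → ℂ) ≃ₗ[ℂ] (Fin n → ℂ) := LinearEquiv.ofLinearMap
      (Matrix.mulVecLin (g : Matrix (Fin n) (Fin n) ℂ))
      (Matrix.mulVecLin ((g⁻¹ : GL (Fin n) ℂ) : Matrix (Fin n) (Fin n) ℂ))
      (LinearMap.ext fun v => mulVec_inv g v) (LinearMap.ext fun v => inv_mulVec g v)
    have he : ∀ v, e v = (g : Matrix (Fin n) (Fin n) ℂ) *ᵥ v := fun _ => rfl
    refine ⟨b.map e, ?_⟩
    rintro _ ⟨d, hd, rfl⟩ i
    obtain ⟨c, hc⟩ := hb d hd i
    refine ⟨c, ?_⟩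
    have h1 : ((MulAut.conj g).toMonoidHom d : GL (Fin n) ℂ) = g * d * g⁻¹ := rfl
    rw [h1, Module.Basis.map_apply, he, Units.val_mul, Units.val_mul, ← Matrix.mulVec_mulVec,
      ← Matrix.mulVec_mulVec, inv_mulVec, hc, Matrix.mulVec_smul]
  · rw [Subgroup.relIndex_map_map_of_injective _ _ (MulAut.conj g).injective]
    exact hi

variable (T : Theory)

/-- **Groups of type `A₁`.** -/
theorem of_surface {p : Bif → Prop} (hp : Stable p) (X : T.Var) (G : Red n) (hG : TypeA1 G.pts)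
    (h : ∀ (Z : T.Var) (q : T.grp X →* T.grp Z), T.Geo q → Function.Surjective q →
      VirtuallySurface (T.grp Z) → ∀ Y : T.Comp Z G, p (T.coh Y)) :
    ∀ Y : T.Comp X G, p (T.coh Y) := by
  intro Y
  obtain ⟨κ, hκ, Z, q, σ, hZ, hcs⟩ := T.corletteSimpson X G hG
  obtain ⟨F, hFG, hF⟩ := T.countable G
  rcases T.dominated Y {i : ℕ // TorusByFinite (F i).pts} (fun i => F i) (fun i => hFG i) κ Z q
    (fun k => (hZ k).1) σ (by
      intro ρ hρ
      have hr := T.semi Y ρ hρ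
      rcases hcs ρ hr with ⟨B, hB, hc⟩ | ⟨k, ρ', hk⟩ | h3
      · left
        obtain ⟨N, hN, hρN, ht⟩ := exists_torusByFinite G ρ hr.1 hr.2 B hB hc
        obtain ⟨i, hi⟩ := hF N hN
        obtain ⟨g, hg, hgi⟩ := hi
        refine ⟨⟨i, torusByFinite_conj ⟨g, hg, hgi⟩ ht⟩, g, hg, fun γ => ?_⟩
        rw [← hgi]
        exact ⟨ρ γ, hρN γ, rfl⟩
      · right
        left
        have hrange : ρ.range = ρ'.range := by
          rw [hk]
          ext x
          constructor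
          · rintro ⟨γ, rfl⟩
            exact ⟨q k γ, rfl⟩
          · rintro ⟨δ, rfl⟩
            obtain ⟨γ, rfl⟩ := (hZ k).2.2 δ
            exact ⟨γ, rfl⟩
        refine ⟨k, ρ', ⟨fun δ => ?_, hrange ▸ hr.2⟩, hk⟩
        obtain ⟨γ, rfl⟩ := (hZ k).2.2 δ
        have h4 := hr.1 γ
        rw [hk] at h4
        exact h4
      · exact Or.inr (Or.inr h3)) with ⟨i, Y', hY'⟩ | ⟨k, Y', hY'⟩ | h3
  · obtain ⟨d, hd⟩ := T.torus i.2 Y'
    exact hp.summand _ _ hY' (hp.summand _ _ hd (hp.toric d))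
  · exact hp.summand _ _ hY' (h (Z k) (q k) (hZ k).1 (hZ k).2.2 (hZ k).2.1 Y')
  · exact hp.summand _ _ h3 (hp.toric 0)

/-- A property which also passes to tensor products. -/
structure TStable (p : Bif → Prop) : Prop extends Stable p where
  tensor : ∀ A B C : Bif, C.IsTensor A B → p A → p B → p C

theorem tstable_q1 : TStable Bif.Q1 := ⟨stable_q1, fun _ _ _ h => h.q1⟩

theorem tstable_oddInP : TStable Bif.OddInP := ⟨stable_oddInP, fun _ _ _ h => h.oddInP⟩

theorem tstable_pinW : TStable (Bif.PinW 0) := ⟨stable_pinW, fun _ _ _ h => h.pinW⟩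

theorem TStable.both : TStable fun A => A.Q1 ∧ A.Q2 := by
  refine ⟨⟨fun A C h hC => ?_, fun d => ⟨toric_q1 d, toric_q2 d⟩⟩, fun A B C h hA hB => ?_⟩
  · exact ⟨h.q1 hC.1, stable_q2.summand A C h hC.2⟩
  · rw [Bif.both_iff] at *
    exact ⟨h.oddInP hA.1 hB.1, h.pinW hA.2 hB.2⟩

/-- **Groups of type `A₁` and groups of semisimple rank one.** -/
theorem of_surface' {p : Bif → Prop} (hp : TStable p) (X : T.Var) (G : Red n)
    (hG : TypeA1 G.pts ∨ RankOne G.pts)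
    (h : ∀ (Z : T.Var) (q : T.grp X →* T.grp Z), T.Geo q → Function.Surjective q →
      VirtuallySurface (T.grp Z) → ∀ H : Red n, H.pts ≤ G.pts → TypeA1 H.pts →
        ∀ Y : T.Comp Z H, p (T.coh Y)) :
    ∀ Y : T.Comp X G, p (T.coh Y) := by
  intro Y
  rcases hG with hG | hG
  · exact of_surface T hp.toStable X G hG (fun Z q h1 h2 h3 => h Z q h1 h2 h3 G le_rfl hG) Y
  · obtain ⟨H, hHG, hH, Y', d, C, hC, hY⟩ := T.twist hG Y
    refine hp.summand _ _ hY (hp.tensor _ _ _ hC ?_ (hp.toric d))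
    exact of_surface T hp.toStable X H hH (fun Z q h1 h2 h3 => h Z q h1 h2 h3 H hHG hH) Y'

end Pool.Agent.H88.PB
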