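import Pool.Agent.H88.PB.Defs

/-!
# Virtually surface groups have a finite index subgroup which maps onto `ℤ⁴`
-/

set_option autoImplicit false

namespace Pool.Agent.H88.PB

/-- The abelianization of the surface group. -/
noncomputable def surfaceAb (g : ℕ) :
    PresentedGroup {surfaceRel g} →* Multiplicative (Fin g × Bool → ℤ) :=
  PresentedGroup.toGroup (f := fun p => Multiplicative.ofAdd (Pi.single p 1)) (by
    intro r hr
    rw [Set.mem_singleton_iff] at hr
    subst hr
    unfold surfaceRel
    rw [map_list_prod]
    refine List.prod_eq_one ?_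
    intro x hx
    rw [List.map_ofFn, List.mem_ofFn] at hx
    obtain ⟨i, rfl⟩ := hx
    simp only [Function.comp_apply, map_mul, map_inv]
    rw [mul_inv_eq_one, mul_assoc, mul_comm (FreeGroup.lift _ (FreeGroup.of (i, true))),
      ← mul_assoc, mul_inv_cancel, one_mul])

theorem surfaceAb_surjective (g : ℕ) : Function.Surjective (surfaceAb g) := by
  intro v
  have h : ∀ w : Fin g × Bool → ℤ, Multiplicative.ofAdd w ∈ (surfaceAb g).range := by
    intro w
    have hw : w = ∑ p, w p • (Pi.single p (1 : ℤ) : Fin g × Bool → ℤ) := by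
      funext q
      simp [Finset.sum_apply, Pi.single_apply]
    rw [hw, ofAdd_sum]
    refine Subgroup.prod_mem _ fun p _ => ?_
    rw [ofAdd_zsmul]
    refine Subgroup.zpow_mem _ ?_ _
    exact ⟨PresentedGroup.of p, PresentedGroup.toGroup.of _⟩
  exact h (Multiplicative.toAdd v)

/-- A group with a quotient which is virtually a surface group has a subgroup of finite index which
maps onto `ℤ⁴`. -/
theorem exists_onto {Γ Q : Type} [Group Γ] [Group Q] (q : Γ →* Q) (hq : Function.Surjective q)
    (hQ : VirtuallySurface Q) : ∃ K : Subgroup Γ, K.index ≠ 0 ∧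
      ∃ f : K →* Multiplicative (Fin 4 → ℤ), Function.Surjective f := by
  obtain ⟨H, hH, g, hg, ⟨e⟩⟩ := hQ
  refine ⟨H.comap q, ?_, ?_⟩
  · rw [Subgroup.index_comap_of_surjective _ hq]
    exact hH
  · let ι : Fin 4 → Fin g × Bool := fun i =>
      (⟨(i : ℕ) / 2, by omega⟩, if (i : ℕ) % 2 = 0 then false else true)
    have hι : Function.Injective ι := by
      intro i j hij
      have h1 := congrArg (fun x : Fin g × Bool => (x.1 : ℕ)) hij
      have h2 := congrArg (fun x : Fin g × Bool => x.2) hij
      simp only [ι] at h1 h2
      apply Fin.ext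
      by_cases hi : (i : ℕ) % 2 = 0 <;> by_cases hj : (j : ℕ) % 2 = 0 <;>
        simp only [hi, hj, if_true, if_false] at h2 <;> first | omega | simp at h2
    let r : Multiplicative (Fin g × Bool → ℤ) →* Multiplicative (Fin 4 → ℤ) :=
      AddMonoidHom.toMultiplicative
        ({ toFun := fun v i => v (ι i)
           map_zero' := rfl
           map_add' := fun _ _ => rfl } : (Fin g × Bool → ℤ) →+ (Fin 4 → ℤ))
    have hr : Function.Surjective r := by
      intro w
      refine ⟨Multiplicative.ofAdd (Function.extend ι (Multiplicative.toAdd w) 0), ?_⟩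
      show Multiplicative.ofAdd (fun i => Function.extend ι (Multiplicative.toAdd w) 0 (ι i)) = w
      simp only [hι.extend_apply]
      rfl
    refine ⟨r.comp ((surfaceAb g).comp (e.toMonoidHom.comp (q.subgroupComap H))), ?_⟩
    exact hr.comp ((surfaceAb_surjective g).comp
      (e.surjective.comp (MonoidHom.subgroupComap_surjective_of_surjective q H hq)))

end Pool.Agent.H88.PB
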